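import Pool.Agent.H.MP_eac85a_an.A

set_option autoImplicit false

namespace Pool.Agent.Results.MP_eac85a_an.No

def WeakSamePhase {n : ℕ} (x y : EuclideanSpace ℝ (Fin n)) : Prop :=
  ∃ θ : SignType, (θ = 1 ∨ θ = -1) ∧ ∀ i, x i ≠ 0 → y i ≠ 0 → SignType.sign (x i) = θ * SignType.sign (y i)

theorem result (n : ℕ) (hn : 8 ≤ n) (W : Fin (2 * n - 2) → Submodule ℝ (EuclideanSpace ℝ (Fin n)))
    (hW : ∀ k, Module.finrank ℝ (W k) = 1) :
    ¬∀ x y : EuclideanSpace ℝ (Fin n),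
      (∀ k, ‖(W k).starProjection x‖ = ‖(W k).starProjection y‖) → WeakSamePhase x y := by
  intro h
  choose φ _ hφ using fun k => finrank_eq_one_iff'.1 (hW k)
  let f : Fin (2 * n - 2) → (Fin n → ℝ) →ₗ[ℝ] ℝ := fun k =>
    (innerₛₗ ℝ (φ k : EuclideanSpace ℝ (Fin n))).comp (WithLp.linearEquiv 2 ℝ (Fin n → ℝ)).symm.toLinearMap
  have z : ∀ k u, f k u = 0 → (W k).starProjection (WithLp.toLp 2 u) = 0 := fun k u e =>
    (W k).starProjection_apply_eq_zero_iff.2 fun w hw => by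
      obtain ⟨c, hc⟩ := hφ k ⟨w, hw⟩
      rw [show w = c • (φ k : EuclideanSpace ℝ (Fin n)) from (congrArg Subtype.val hc).symm, real_inner_smul_left]
      exact mul_eq_zero_of_right _ e
  have key : ∀ u v : Fin n → ℝ, (∀ k, f k u = 0 ∨ f k v = 0) → ∀ i j, u i ^ 2 * v j ^ 2 ≤ u j ^ 2 * v i ^ 2 := by
    intro u v huv i j
    by_contra hc
    obtain ⟨a, ha⟩ : ∃ a : ℝ, a ^ 2 = v i ^ 2 + v j ^ 2 := ⟨_, Real.sq_sqrt (by positivity)⟩
    obtain ⟨b, hb⟩ : ∃ b : ℝ, b ^ 2 = u i ^ 2 + u j ^ 2 := ⟨_, Real.sq_sqrt (by positivity)⟩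
    obtain ⟨θ, -, h2⟩ := h (a • WithLp.toLp 2 u + b • WithLp.toLp 2 v) (a • WithLp.toLp 2 u - b • WithLp.toLp 2 v)
      fun k => by rcases huv k with e | e <;> simp [z k _ e]
    have p1 : 0 < (a * u i + b * v i) * (a * u i - b * v i) := by
      linarith [show (a * u i + b * v i) * (a * u i - b * v i) = u i ^ 2 * v j ^ 2 - u j ^ 2 * v i ^ 2 by
        linear_combination u i ^ 2 * ha - v i ^ 2 * hb]
    have p2 : (a * u j + b * v j) * (a * u j - b * v j) < 0 := by
      linarith [show (a * u j + b * v j) * (a * u j - b * v j) = u j ^ 2 * v i ^ 2 - u i ^ 2 * v j ^ 2 by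
        linear_combination u j ^ 2 * ha - v j ^ 2 * hb]
    have q1 : SignType.sign (a * u i + b * v i) = θ * SignType.sign (a * u i - b * v i) :=
      h2 i (left_ne_zero_of_mul p1.ne') (right_ne_zero_of_mul p1.ne')
    have q2 : SignType.sign (a * u j + b * v j) = θ * SignType.sign (a * u j - b * v j) :=
      h2 j (left_ne_zero_of_mul p2.ne) (right_ne_zero_of_mul p2.ne)
    have r1 := sign_pos p1
    have r2 := sign_neg p2
    rw [sign_mul, q1] at r1
    rw [sign_mul, q2] at r2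
    exact (by decide : ∀ θ s t : SignType, θ * s * s = 1 → θ * t * t = -1 → False) _ _ _ r1 r2
  have := Pool.Agent.H.MP_eac85a_an.main (f := f) (by rw [Fintype.card_fin]; omega) (by omega)
    fun u v huv i j => le_antisymm (key u v huv i j) (key u v huv j i)
  omega

end Pool.Agent.Results.MP_eac85a_an.No
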